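import Pool.Agent.H23.DF.TargetsL
import Pool.Agent.H19.DM.BE

/-!
# Moments of Hecke L-functions, friable conductors: row BE

Bessel's inequality for the characters in a coset, without a condition on the radical.
-/

set_option autoImplicit false

open NumberField Finset
open scoped nonZeroDivisors

namespace Pool.Agent.H19.DF.BE

open Pool.Agent.H25.HK Pool.Agent.H23.LB Pool.Agent.H23.LC
open Pool.Agent.H29.TC (Gn cq MC)
open Pool.Agent.H19.DM.BE (qc qc_mul qc_norm qc_zero qc_back bessel_hilbert crd crd_spec crd_iff)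

section

variable {R Q : Type} [CommRing R] [CommRing Q] (p : R →+* Q)

theorem qc_per {η η₀ : R → ℂ} (h : MC η) (h₀ : MC η₀)
    (heq : ∀ j, p j = 0 → η (1 + j) = η₀ (1 + j)) {x y : R} (hx : IsUnit x) (hy : IsUnit y)
    (hxy : p x = p y) : qc η η₀ x = qc η η₀ y := by
  have hj : p (y - x) = 0 := by rw [map_sub, hxy, sub_self]
  obtain ⟨u, rfl⟩ := hx
  have hj2 : p ((u⁻¹ : Rˣ) * (y - u)) = 0 := by rw [map_mul, hj, mul_zero]
  have h1 : (u : R) * (u⁻¹ : Rˣ) = 1 := by simp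
  have e : y = u * (1 + (u⁻¹ : Rˣ) * (y - u)) := by
    linear_combination (-(y - (u : R))) * h1
  have e2 : (1 + (u⁻¹ : Rˣ) * (y - u) : R) = (u⁻¹ : Rˣ) * y := by
    linear_combination -h1
  have hun : IsUnit (1 + (u⁻¹ : Rˣ) * (y - u) : R) := by
    rw [e2]
    exact (u⁻¹ : Rˣ).isUnit.mul hy
  rw [e, qc_mul h h₀, qc, qc, heq _ hj2, mul_comm (η₀ _), h₀.conj_mul hun, mul_one]

open scoped Classical in
/-- the quotient of the characters on the classes of units -/
noncomputable def gq (η η₀ : R → ℂ) (q : Q) : ℂ :=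
  if h : ∃ u : R, IsUnit u ∧ p u = q then qc η η₀ h.choose else 0

theorem gq_unit {η η₀ : R → ℂ} (h : MC η) (h₀ : MC η₀)
    (heq : ∀ j, p j = 0 → η (1 + j) = η₀ (1 + j)) {y : R} (hy : IsUnit y) :
    gq p η η₀ (p y) = qc η η₀ y := by
  have hex : ∃ u : R, IsUnit u ∧ p u = p y := ⟨y, hy, rfl⟩
  rw [gq, dif_pos hex]
  exact qc_per p h h₀ heq hex.choose_spec.1 hy hex.choose_spec.2

theorem gq_mul {η η₀ : R → ℂ} (h : MC η) (h₀ : MC η₀)
    (heq : ∀ j, p j = 0 → η (1 + j) = η₀ (1 + j)) {u : R} (hu : IsUnit u) (q : Q) :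
    gq p η η₀ (p u * q) = gq p η η₀ (p u) * gq p η η₀ q := by
  by_cases hq : ∃ y : R, IsUnit y ∧ p y = q
  · obtain ⟨y, hy, rfl⟩ := hq
    rw [← map_mul, gq_unit p h h₀ heq (hu.mul hy), gq_unit p h h₀ heq hu,
      gq_unit p h h₀ heq hy, qc_mul h h₀]
  · have hq2 : ¬ ∃ y : R, IsUnit y ∧ p y = p u * q := by
      rintro ⟨y, hy, hyq⟩
      obtain ⟨v, rfl⟩ := hu
      refine hq ⟨(v⁻¹ : Rˣ) * y, (v⁻¹ : Rˣ).isUnit.mul hy, ?_⟩
      rw [map_mul, hyq, ← mul_assoc, ← map_mul]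
      simp
    rw [gq, dif_neg hq2, gq.eq_def p η η₀ q, dif_neg hq, mul_zero]

theorem gq_norm {η η₀ : R → ℂ} (h : MC η) (h₀ : MC η₀) (q : Q) : ‖gq p η η₀ q‖ ≤ 1 := by
  rw [gq]
  split_ifs
  · exact qc_norm h h₀ _
  · simp

/-- Bessel's inequality for the characters in a coset -/
theorem bessel [Fintype Q] {X : Type} (H : Finset (R → ℂ)) (η₀ : R → ℂ) (h₀ : MC η₀)
    (hH : ∀ η ∈ H, MC η) (heq : ∀ η ∈ H, ∀ j, p j = 0 → η (1 + j) = η₀ (1 + j)) (s : Finset X)
    (c : X → R) (b : X → ℂ) : open scoped Classical in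
    ∑ η ∈ H, ‖∑ x ∈ s, η (c x) * b x‖ ^ 2 ≤ (Fintype.card Q : ℝ) *
      (∑ x ∈ s, ∑ x' ∈ s, if p (c x) = p (c x') then
        η₀ (c x) * (starRingEnd ℂ) (η₀ (c x')) * (b x * (starRingEnd ℂ) (b x')) else 0).re := by
  classical
  set G : (R → ℂ) → Q → ℂ := fun η q => gq p η η₀ q with hG
  have hGp : ∀ η ∈ H, ∀ y, IsUnit y → G η (p y) = qc η η₀ y := fun η hη y hy =>
    gq_unit p (hH η hη) h₀ (heq η hη) hy
  have hGm : ∀ η ∈ H, ∀ (u : R), IsUnit u → ∀ q : Q, G η (p u * q) = G η (p u) * G η q :=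
    fun η hη u hu q => gq_mul p (hH η hη) h₀ (heq η hη) hu q
  set B : Q → ℂ := fun q => ∑ x ∈ s, if p (c x) = q then η₀ (c x) * b x else 0 with hB
  set v : (R → ℂ) → EuclideanSpace ℂ Q := fun η =>
    WithLp.toLp 2 (fun q => (starRingEnd ℂ) (G η q)) with hv
  set w : EuclideanSpace ℂ Q := WithLp.toLp 2 B with hw
  have hsum : ∀ η ∈ H, inner ℂ (v η) w = ∑ x ∈ s, η (c x) * b x := by
    intro η hη
    rw [PiLp.inner_apply]
    simp only [hv, hw, RCLike.inner_apply, Complex.conj_conj]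
    rw [hB]
    simp only [Finset.sum_mul]
    rw [Finset.sum_comm]
    refine Finset.sum_congr rfl fun x _ => ?_
    simp only [ite_mul, zero_mul]
    rw [Finset.sum_ite_eq, if_pos (Finset.mem_univ _)]
    by_cases hx : IsUnit (c x)
    · rw [hGp η hη _ hx]
      conv_rhs => rw [qc_back (hH η hη) h₀ (c x)]
      ring
    · rw [h₀.zero _ hx, (hH η hη).zero _ hx]
      ring
  have hnorm : ∀ η ∈ H, ‖v η‖ ^ 2 ≤ (Fintype.card Q : ℝ) := by
    intro η hη
    rw [EuclideanSpace.norm_sq_eq]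
    calc ∑ q, ‖(v η) q‖ ^ 2 ≤ ∑ _q : Q, (1 : ℝ) := by
          refine Finset.sum_le_sum fun q _ => ?_
          rw [hv]
          simp only
          rw [RCLike.norm_conj]
          exact pow_le_one₀ (norm_nonneg _) (gq_norm p (hH η hη) h₀ _)
      _ = (Fintype.card Q : ℝ) := by simp
  have hne : ∀ η ∈ H, v η ≠ 0 := by
    intro η hη h
    have h1 : (v η) (p 1) = 0 := by rw [h]; rfl
    rw [hv] at h1
    simp only at h1
    rw [hGp η hη _ isUnit_one, qc, (hH η hη).one, h₀.one] at h1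
    simp at h1
  have hort : ∀ η ∈ H, ∀ η' ∈ H, η ≠ η' → inner ℂ (v η) (v η') = 0 := by
    intro η hη η' hη' hne
    obtain ⟨u, hu, hune⟩ : ∃ u : R, IsUnit u ∧ η u ≠ η' u := by
      by_contra hcon
      push Not at hcon
      apply hne
      funext y
      by_cases hy : IsUnit y
      · exact hcon y hy
      · rw [(hH η hη).zero y hy, (hH η' hη').zero y hy]
    have hS : inner ℂ (v η) (v η') = ∑ q, (starRingEnd ℂ) (G η' q) * G η q := by
      rw [PiLp.inner_apply]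
      simp only [hv, RCLike.inner_apply, Complex.conj_conj]
    rw [hS]
    set S : ℂ := ∑ q, (starRingEnd ℂ) (G η' q) * G η q with hSdef
    have hbij : Function.Bijective (fun q : Q => p u * q) := by
      have hpu : IsUnit (p u) := hu.map p
      exact IsUnit.isUnit_iff_mulLeft_bijective.mp hpu
    have h1 : S = ((starRingEnd ℂ) (G η' (p u)) * G η (p u)) * S := by
      conv_lhs => rw [hSdef, ← hbij.sum_comp]
      rw [hSdef, Finset.mul_sum]
      refine Finset.sum_congr rfl fun q _ => ?_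
      rw [hGm η hη u hu, hGm η' hη' u hu, map_mul]
      ring
    have h2 : (starRingEnd ℂ) (G η' (p u)) * G η (p u) = (starRingEnd ℂ) (η' u) * η u := by
      rw [hGp η hη u hu, hGp η' hη' u hu, qc, qc, map_mul, Complex.conj_conj]
      linear_combination ((starRingEnd ℂ) (η' u) * η u) * h₀.conj_mul hu
    have h3 : (starRingEnd ℂ) (η' u) * η u ≠ 1 := by
      intro h4
      apply hune
      have h5 := (hH η' hη').conj_mul hu
      linear_combination η' u * h4 - η u * h5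
    rw [h2] at h1
    have h6 : (1 - (starRingEnd ℂ) (η' u) * η u) * S = 0 := by linear_combination h1
    rcases mul_eq_zero.mp h6 with h7 | h7
    · exact absurd (sub_eq_zero.mp h7).symm h3
    · exact h7
  have hfin := bessel_hilbert H v (Fintype.card Q : ℝ) (by positivity) hnorm hne hort w
  rw [Finset.sum_congr rfl (fun η hη => by rw [hsum η hη])] at hfin
  refine hfin.trans (le_of_eq ?_)
  congr 1
  have h8 : ((‖w‖ ^ 2 : ℝ) : ℂ) = ∑ x ∈ s, ∑ x' ∈ s, if p (c x) = p (c x') then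
        η₀ (c x) * (starRingEnd ℂ) (η₀ (c x')) * (b x * (starRingEnd ℂ) (b x')) else 0 := by
    rw [EuclideanSpace.norm_sq_eq, Complex.ofReal_sum]
    have h9 : ∀ q : Q, ((‖w q‖ ^ 2 : ℝ) : ℂ) = ∑ x ∈ s, ∑ x' ∈ s,
        if p (c x) = q then (if p (c x') = q then η₀ (c x) * (starRingEnd ℂ) (η₀ (c x')) *
          (b x * (starRingEnd ℂ) (b x')) else 0) else 0 := by
      intro q
      have h10 : ((‖w q‖ ^ 2 : ℝ) : ℂ) = B q * (starRingEnd ℂ) (B q) := by
        rw [Complex.mul_conj, Complex.normSq_eq_norm_sq]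
      rw [h10, hB]
      simp only
      rw [map_sum, Finset.sum_mul_sum]
      refine Finset.sum_congr rfl fun x _ => Finset.sum_congr rfl fun x' _ => ?_
      split_ifs
      · rw [map_mul]; ring
      · simp
      · simp
      · simp
    rw [Finset.sum_congr rfl (fun q _ => h9 q), Finset.sum_comm]
    refine Finset.sum_congr rfl fun x _ => ?_
    rw [Finset.sum_comm]
    refine Finset.sum_congr rfl fun x' _ => ?_
    rw [Finset.sum_ite_eq, if_pos (Finset.mem_univ _)]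
    by_cases hxx : p (c x) = p (c x')
    · rw [if_pos hxx, if_pos hxx.symm]
    · rw [if_neg hxx, if_neg (fun h => hxx h.symm)]
  rw [← h8, Complex.ofReal_re]

end

theorem pf_BE : Pool.Agent.H23.DF.F_BE := by
  intro K _ _ k κ M x₀ H η₀ X a hk hkκ hM hGn h₀ hH heq hX
  classical
  have hκ : κ ≠ ⊥ := by
    rintro rfl
    exact hk (le_bot_iff.mp hkκ)
  have hfin : Finite (𝓞 K ⧸ κ) := Ideal.finiteQuotientOfFreeOfNeBot κ hκ
  let _ : Fintype (𝓞 K ⧸ κ) := Fintype.ofFinite _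
  set p : 𝓞 K ⧸ k →+* 𝓞 K ⧸ κ := Ideal.Quotient.factor hkκ with hp
  have hpm : ∀ x : 𝓞 K, p (Ideal.Quotient.mk k x) = Ideal.Quotient.mk κ x := fun x =>
    Ideal.Quotient.factor_mk hkκ x
  have hps : Function.Surjective p := Ideal.Quotient.factor_surjective hkκ
  have hker : ∀ j : 𝓞 K ⧸ k, p j = 0 → ∃ t ∈ κ, Ideal.Quotient.mk k t = j := by
    intro j hj
    obtain ⟨t, rfl⟩ := Ideal.Quotient.mk_surjective j
    rw [hpm, Ideal.Quotient.eq_zero_iff_mem] at hj
    exact ⟨t, hj, rfl⟩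
  have key := bessel p H η₀ h₀ hH (fun η hη j hj => by
    obtain ⟨t, ht, rfl⟩ := hker j hj
    have h1 := heq η hη t ht
    rwa [map_add, map_one] at h1) X (fun x => Ideal.Quotient.mk k (crd k M x₀ x)) a
  have hcard : (Fintype.card (𝓞 K ⧸ κ) : ℝ) = Nf K κ := by
    rw [Nf, Ideal.absNorm_apply, Submodule.cardQuot_apply, Nat.card_eq_fintype_card]
  rw [hcard] at key
  have e1 : ∀ η : 𝓞 K ⧸ k → ℂ, ∑ x ∈ X, cq k η M x₀ x * a x =
      ∑ x ∈ X, η (Ideal.Quotient.mk k (crd k M x₀ x)) * a x := fun η =>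
    Finset.sum_congr rfl fun x hx => by rw [(crd_spec hGn (hX x hx)).2 η]
  simp only [e1]
  refine key.trans (le_of_eq ?_)
  congr 2
  refine Finset.sum_congr rfl fun x hx => Finset.sum_congr rfl fun x' hx' => ?_
  rw [(crd_spec hGn (hX x hx)).2 η₀, (crd_spec hGn (hX x' hx')).2 η₀]
  refine if_congr ?_ rfl rfl
  rw [hpm, hpm, Ideal.Quotient.eq]
  exact (crd_iff hkκ hGn (hX x hx) (hX x' hx')).symm

end Pool.Agent.H19.DF.BE
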