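import Pool.Agent.H23.DF.TargetsL

/-!
# Moments of Hecke L-functions, friable conductors: row FN

Frequencies and labels of the primitive characters modulo `s k`.
-/

set_option autoImplicit false

open NumberField UniqueFactorizationMonoid
open scoped nonZeroDivisors

namespace Pool.Agent.H19.DF.FN

open Pool.Agent.H25.HK Pool.Agent.H23.LB Pool.Agent.H23.LC
open Pool.Agent.H29.TC (LC MC)
open Pool.Agent.H23.DM (Fq D_EF D_NC lg5)
open Pool.Agent.H23.DF (F_SX F_FN SK)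

variable {K : Type} [Field K] [NumberField K]

/-- the prime divisors of a radical ideal -/
theorem rad_prod {s : Ideal (𝓞 K)} (hs : s ≠ ⊥) (hr : s.radical = s) :
    ∃ S : Finset (Ideal (𝓞 K)), (∀ P ∈ S, Prime P ∧ s ≤ P) ∧
      (∀ P : Ideal (𝓞 K), P.IsPrime → s ≤ P → P ∈ S) ∧ ∏ P ∈ S, P = s := by
  classical
  have hsq : Squarefree s := by
    refine IsRadical.squarefree hs ?_
    intro n y hy
    rw [Ideal.dvd_iff_le] at hy ⊢
    intro x hx
    rw [← hr]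
    exact ⟨n, hy (Ideal.pow_mem_pow hx n)⟩
  have hnd := (squarefree_iff_nodup_normalizedFactors hs).1 hsq
  refine ⟨(normalizedFactors s).toFinset, ?_, ?_, ?_⟩
  · intro P hP
    rw [Multiset.mem_toFinset] at hP
    exact ⟨prime_of_normalized_factor P hP,
      Ideal.dvd_iff_le.1 (dvd_of_mem_normalizedFactors hP)⟩
  · intro P hP hsP
    have hP0 : P ≠ ⊥ := by
      rintro rfl
      exact hs (le_bot_iff.1 hsP)
    have hPp : Prime P := Ideal.prime_of_isPrime hP0 hP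
    rw [Multiset.mem_toFinset]
    obtain ⟨Q, hQ, hPQ⟩ := exists_mem_normalizedFactors_of_dvd hs hPp.irreducible
      (Ideal.dvd_iff_le.2 hsP)
    rw [associated_iff_eq] at hPQ
    rw [hPQ]
    exact hQ
  · rw [Finset.prod, Multiset.toFinset_val, hnd.dedup, Multiset.map_id']
    exact Ideal.prod_normalizedFactors_eq_self hs

theorem cop_prod {P : Ideal (𝓞 K)} (hP : Prime P) {S : Finset (Ideal (𝓞 K))}
    (hS : ∀ Q ∈ S, Prime Q ∧ Q ≠ P) {k : Ideal (𝓞 K)} (hk : P ⊔ k = ⊤) :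
    P ⊔ (∏ Q ∈ S, Q) * k = ⊤ := by
  rw [← Ideal.isCoprime_iff_sup_eq]
  refine IsCoprime.mul_right (IsCoprime.prod_right fun Q hQ => ?_)
    (Ideal.isCoprime_iff_sup_eq.2 hk)
  have hPm : P.IsMaximal := (Ideal.isPrime_of_prime hP).isMaximal hP.ne_zero
  have hQm : Q.IsMaximal := (Ideal.isPrime_of_prime (hS Q hQ).1).isMaximal (hS Q hQ).1.ne_zero
  rw [Ideal.isCoprime_iff_sup_eq]
  exact hPm.coprime_of_ne hQm (hS Q hQ).2.symm

/-- the splitting of a primitive character -/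
theorem split (hSX : F_SX) (k : Ideal (𝓞 K)) (hk : k ≠ ⊥) (S : Finset (Ideal (𝓞 K))) :
    (∀ P ∈ S, Prime P ∧ P ⊔ k = ⊤) → ∀ a : Ideal (𝓞 K), a = (∏ P ∈ S, P) * k →
    ∀ η : 𝓞 K ⧸ a → ℂ, LC a η →
    ∃ (ηP : (P : Ideal (𝓞 K)) → 𝓞 K ⧸ P → ℂ) (ηk : 𝓞 K ⧸ k → ℂ),
      (∀ P ∈ S, LC P (ηP P)) ∧ LC k ηk ∧ ∀ Y : 𝓞 K, η (Ideal.Quotient.mk a Y) =
        (∏ P ∈ S, ηP P (Ideal.Quotient.mk P Y)) * ηk (Ideal.Quotient.mk k Y) := by
  classical
  induction S using Finset.induction_on with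
  | empty =>
    intro _ a ha η hη
    rw [Finset.prod_empty, one_mul] at ha
    subst ha
    exact ⟨fun _ _ => 0, η, by simp, hη, fun Y => by simp⟩
  | insert P S hPS ih =>
    intro hS a ha η hη
    have hP := hS P (Finset.mem_insert_self P S)
    have hS' : ∀ Q ∈ S, Prime Q ∧ Q ⊔ k = ⊤ := fun Q hQ => hS Q (Finset.mem_insert_of_mem hQ)
    rw [Finset.prod_insert hPS, mul_assoc] at ha
    subst ha
    have hb : (∏ Q ∈ S, Q) * k ≠ ⊥ := by
      refine mul_ne_zero (Finset.prod_ne_zero_iff.2 fun Q hQ => (hS' Q hQ).1.ne_zero) hk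
    have hcop : P ⊔ (∏ Q ∈ S, Q) * k = ⊤ := cop_prod hP.1 (fun Q hQ => ⟨(hS' Q hQ).1, by
      rintro rfl
      exact hPS hQ⟩) hP.2
    obtain ⟨η₁, η₂, h₁, h₂, h12⟩ := hSX K P _ hP.1.ne_zero hb hcop η hη
    obtain ⟨ηP, ηk, g₁, g₂, g12⟩ := ih hS' _ rfl η₂ h₂
    refine ⟨Function.update ηP P η₁, ηk, ?_, g₂, ?_⟩
    · intro Q hQ
      rcases Finset.mem_insert.1 hQ with hQP | hQS
      · subst hQP
        rw [Function.update_self]
        exact h₁
      · have hne : Q ≠ P := by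
          intro h
          rw [h] at hQS
          exact hPS hQS
        rw [Function.update_of_ne hne]
        exact g₁ Q hQS
    · intro Y
      rw [h12, g12, Finset.prod_insert hPS, Function.update_self, mul_assoc]
      congr 2
      refine Finset.prod_congr rfl fun Q hQ => ?_
      rw [Function.update_of_ne (by rintro rfl; exact hPS hQ)]

/-- labels for the components at a prime -/
theorem labels (hNC : D_NC) {ι : Type} (J : Finset ι) (P : Ideal (𝓞 K)) (hP : P ≠ ⊥)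
    (f : ι → 𝓞 K ⧸ P → ℂ) (hf : ∀ j ∈ J, MC (f j)) :
    ∃ lab : ι → 𝓞 K, ∀ i ∈ J, ∀ j ∈ J, (lab i - lab j ∈ P ↔ f i = f j) := by
  classical
  have hfin : Finite (𝓞 K ⧸ P) := Ideal.finiteQuotientOfFreeOfNeBot P hP
  let _ : Fintype (𝓞 K ⧸ P) := Fintype.ofFinite _
  have hc := hNC K P (J.image f) hP (by
    intro η hη
    obtain ⟨j, hj, rfl⟩ := Finset.mem_image.1 hη
    exact hf j hj)
  have hcard : (Fintype.card (𝓞 K ⧸ P) : ℝ) = Nf K P := by
    rw [Nf, Ideal.absNorm_apply, Submodule.cardQuot_apply, Nat.card_eq_fintype_card]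
  rw [← hcard, Nat.cast_le] at hc
  obtain ⟨emb⟩ : Nonempty ({x // x ∈ J.image f} ↪ 𝓞 K ⧸ P) := by
    refine Function.Embedding.nonempty_of_card_le ?_
    rw [Fintype.card_coe]
    exact hc
  obtain ⟨g, hg⟩ : ∃ g : 𝓞 K ⧸ P → 𝓞 K, ∀ y, Ideal.Quotient.mk P (g y) = y :=
    ⟨Function.surjInv Ideal.Quotient.mk_surjective,
      fun y => Function.surjInv_eq Ideal.Quotient.mk_surjective y⟩
  refine ⟨fun j => if h : f j ∈ J.image f then g (emb ⟨f j, h⟩) else 0, ?_⟩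
  intro i hi j hj
  have hi' : f i ∈ J.image f := Finset.mem_image_of_mem f hi
  have hj' : f j ∈ J.image f := Finset.mem_image_of_mem f hj
  simp only [dif_pos hi', dif_pos hj']
  rw [← Ideal.Quotient.eq, hg, hg, emb.injective.eq_iff, Subtype.mk.injEq]

/-- membership in a divisor of `s k` -/
theorem mem_div {s k κ' b' : Ideal (𝓞 K)} (hs : s ≠ ⊥) (hr : s.radical = s) (hcop : s ⊔ k = ⊤)
    (hsk : s * k = κ' * b') (x : 𝓞 K) :
    x ∈ b' ↔ x ∈ b' ⊔ k ∧ ∀ P : Ideal (𝓞 K), P.IsPrime → s ≤ P → b' ≤ P → x ∈ P := by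
  constructor
  · intro h
    exact ⟨le_sup_left (a := b') h, fun P _ _ hP => hP h⟩
  · rintro ⟨h1, h2⟩
    have hskb : s * k ≤ b' := hsk ▸ Ideal.mul_le_right
    have hf : x ∈ b' ⊔ s := by
      obtain ⟨g, hg⟩ := Ideal.dvd_iff_le.2 (le_sup_right : s ≤ b' ⊔ s)
      have hg0 : g ≠ 0 := by
        rintro rfl
        rw [mul_zero] at hg
        exact hs hg
      have h3 : Ideal.span {x} * g ≤ (b' ⊔ s) * g := by
        rw [← hg, Ideal.mul_le]
        intro r hrx y hy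
        rw [Ideal.mem_span_singleton'] at hrx
        obtain ⟨c, rfl⟩ := hrx
        rw [← hr, Ideal.radical_eq_sInf, Ideal.mem_sInf]
        rintro P ⟨hsP, hP⟩
        have h4 : (b' ⊔ s) * g ≤ P := hg ▸ hsP
        rcases (Ideal.IsPrime.mul_le hP).1 h4 with h5 | h5
        · exact P.mul_mem_right _ (P.mul_mem_left _ (h2 P hP hsP (le_sup_left.trans h5)))
        · exact P.mul_mem_left _ (h5 hy)
      have h6 : Ideal.span {x} ≤ b' ⊔ s := by
        rw [← Ideal.dvd_iff_le] at h3 ⊢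
        exact (mul_dvd_mul_iff_right hg0).1 h3
      exact h6 (Ideal.mem_span_singleton_self x)
    obtain ⟨u, hu, v, hv, huv⟩ := Submodule.mem_sup.1 (hcop ▸ Submodule.mem_top : (1 : 𝓞 K) ∈ s ⊔ k)
    have e : x = x * u + x * v := by rw [← mul_add, huv, mul_one]
    rw [e]
    obtain ⟨a, ha, c, hc, hac⟩ := Submodule.mem_sup.1 h1
    obtain ⟨a', ha', c', hc', hac'⟩ := Submodule.mem_sup.1 hf
    refine b'.add_mem ?_ ?_
    · rw [← hac, add_mul]
      refine b'.add_mem (b'.mul_mem_right _ ha) (hskb ?_)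
      rw [mul_comm c u]
      exact Ideal.mul_mem_mul hu hc
    · rw [← hac', add_mul]
      exact b'.add_mem (b'.mul_mem_right _ ha') (hskb (Ideal.mul_mem_mul hc' hv))

omit [NumberField K] in
/-- the cofactor at `k` -/
theorem k_eq {s k κ' b' : Ideal (𝓞 K)} (hcop : s ⊔ k = ⊤) (hsk : s * k = κ' * b') :
    k = (κ' ⊔ k) * (b' ⊔ k) := by
  apply le_antisymm
  · calc k = k * (s ⊔ k) := by rw [hcop, Ideal.mul_top]
      _ = s * k ⊔ k * k := by rw [Ideal.mul_sup, mul_comm k s]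
      _ ≤ (κ' ⊔ k) * (b' ⊔ k) := by
        rw [hsk]
        exact sup_le (Ideal.mul_mono le_sup_left le_sup_left)
          (Ideal.mul_mono le_sup_right le_sup_right)
  · rw [Ideal.sup_mul, Ideal.mul_sup, ← hsk]
    exact sup_le (sup_le Ideal.mul_le_right Ideal.mul_le_right) Ideal.mul_le_left

/-- equality on the units `1 + κ'` in components -/
theorem eq_iff {s k κ' b' : Ideal (𝓞 K)} (hcop : s ⊔ k = ⊤) (hsk : s * k = κ' * b')
    {S : Finset (Ideal (𝓞 K))} (hS1 : ∀ P ∈ S, Prime P ∧ s ≤ P) (hSp : ∏ P ∈ S, P = s)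
    {η η' : 𝓞 K ⧸ (s * k) → ℂ} {f f' : (P : Ideal (𝓞 K)) → 𝓞 K ⧸ P → ℂ}
    {g g' : 𝓞 K ⧸ k → ℂ} (hf : ∀ P ∈ S, LC P (f P)) (hf' : ∀ P ∈ S, LC P (f' P))
    (hg : LC k g) (hg' : LC k g')
    (h : ∀ Y : 𝓞 K, η (Ideal.Quotient.mk (s * k) Y) =
      (∏ P ∈ S, f P (Ideal.Quotient.mk P Y)) * g (Ideal.Quotient.mk k Y))
    (h' : ∀ Y : 𝓞 K, η' (Ideal.Quotient.mk (s * k) Y) =
      (∏ P ∈ S, f' P (Ideal.Quotient.mk P Y)) * g' (Ideal.Quotient.mk k Y)) :
    (∀ t ∈ κ', η (Ideal.Quotient.mk (s * k) (1 + t)) = η' (Ideal.Quotient.mk (s * k) (1 + t))) ↔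
      (∀ t ∈ κ' ⊔ k, g (Ideal.Quotient.mk k (1 + t)) = g' (Ideal.Quotient.mk k (1 + t))) ∧
        ∀ P ∈ S, b' ≤ P → f P = f' P := by
  classical
  have one_of : ∀ (P : Ideal (𝓞 K)) (t : 𝓞 K), t ∈ P → Ideal.Quotient.mk P (1 + t) = 1 := by
    intro P t ht
    rw [map_add, map_one, Ideal.Quotient.eq_zero_iff_mem.2 ht, add_zero]
  constructor
  · intro hE
    constructor
    · intro t ht
      obtain ⟨a, ha, c, hc, hac⟩ := Submodule.mem_sup.1 ht
      obtain ⟨u, hu, v, hv, huv⟩ :=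
        Submodule.mem_sup.1 (hcop ▸ Submodule.mem_top : (1 : 𝓞 K) ∈ s ⊔ k)
      have h1 := hE (u * a) (κ'.mul_mem_left _ ha)
      have hk2 : Ideal.Quotient.mk k (1 + u * a) = Ideal.Quotient.mk k (1 + t) := by
        rw [Ideal.Quotient.eq]
        have e : 1 + u * a - (1 + t) = -(v * a) - c := by
          linear_combination a * huv + hac
        rw [e]
        exact k.sub_mem (k.neg_mem (k.mul_mem_right _ hv)) hc
      have hP1 : ∀ P ∈ S, Ideal.Quotient.mk P (1 + u * a) = 1 := fun P hP =>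
        one_of P _ ((hS1 P hP).2 (s.mul_mem_right _ hu))
      have hpr : ∀ F : (P : Ideal (𝓞 K)) → 𝓞 K ⧸ P → ℂ, (∀ P ∈ S, LC P (F P)) →
          ∏ P ∈ S, F P (Ideal.Quotient.mk P (1 + u * a)) = 1 := by
        intro F hF
        refine Finset.prod_eq_one fun P hP => ?_
        rw [hP1 P hP, (hF P hP).mc.one]
      rw [h, h', hk2, hpr f hf, hpr f' hf', one_mul, one_mul] at h1
      exact h1
    · intro P hP hbP
      have hPk : P ⊔ k = ⊤ := by
        rw [eq_top_iff, ← hcop]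
        exact sup_le_sup_right (hS1 P hP).2 k
      have hcm : P ⊔ (∏ Q ∈ S.erase P, Q) * k = ⊤ := cop_prod (hS1 P hP).1
        (fun Q hQ => ⟨(hS1 Q (Finset.mem_of_mem_erase hQ)).1, Finset.ne_of_mem_erase hQ⟩) hPk
      have hm : s * k = P * ((∏ Q ∈ S.erase P, Q) * k) := by
        rw [← mul_assoc, Finset.mul_prod_erase S (fun Q => Q) hP, hSp]
      set m : Ideal (𝓞 K) := (∏ Q ∈ S.erase P, Q) * k with hmdef
      have hmκ : m ≤ κ' := by
        obtain ⟨b'', hb''⟩ := Ideal.dvd_iff_le.2 hbP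
        have e : P * m = P * (κ' * b'') := by
          rw [← hm, hsk, hb'']
          ring
        rw [mul_left_cancel₀ (hS1 P hP).1.ne_zero e]
        exact Ideal.mul_le_left
      obtain ⟨u, hu, v, hv, huv⟩ :=
        Submodule.mem_sup.1 (hcm ▸ Submodule.mem_top : (1 : 𝓞 K) ∈ P ⊔ m)
      funext y
      obtain ⟨y, rfl⟩ := Ideal.Quotient.mk_surjective y
      have h1 := hE (v * (y - 1)) (hmκ (m.mul_mem_right _ hv))
      have hy : Ideal.Quotient.mk P (1 + v * (y - 1)) = Ideal.Quotient.mk P y := by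
        rw [Ideal.Quotient.eq]
        have e : 1 + v * (y - 1) - y = -(u * (y - 1)) := by
          linear_combination (y - 1) * huv
        rw [e]
        exact P.neg_mem (P.mul_mem_right _ hu)
      have hQ1 : ∀ Q ∈ S.erase P, Ideal.Quotient.mk Q (1 + v * (y - 1)) = 1 := by
        intro Q hQ
        refine one_of Q _ (Q.mul_mem_right _ ?_)
        have h2 : m ≤ Q := by
          rw [hmdef, ← Finset.mul_prod_erase (S.erase P) (fun Q => Q) hQ, mul_assoc]
          exact Ideal.mul_le_left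
        exact h2 hv
      have hk1 : Ideal.Quotient.mk k (1 + v * (y - 1)) = 1 :=
        one_of k _ (k.mul_mem_right _ (Ideal.mul_le_right (hmdef ▸ hv)))
      have hpr : ∀ F : (P : Ideal (𝓞 K)) → 𝓞 K ⧸ P → ℂ, (∀ P ∈ S, LC P (F P)) →
          ∏ Q ∈ S, F Q (Ideal.Quotient.mk Q (1 + v * (y - 1))) =
            F P (Ideal.Quotient.mk P y) := by
        intro F hF
        rw [← Finset.mul_prod_erase S
          (fun Q => F Q (Ideal.Quotient.mk Q (1 + v * (y - 1)))) hP, hy, Finset.prod_eq_one,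
          mul_one]
        intro Q hQ
        rw [hQ1 Q hQ, (hF Q (Finset.mem_of_mem_erase hQ)).mc.one]
      rw [h, h', hpr f hf, hpr f' hf', hk1, hg.mc.one, hg'.mc.one, mul_one, mul_one] at h1
      exact h1
  · rintro ⟨hk, hP⟩ t ht
    rw [h, h', hk t (le_sup_left (a := κ') ht)]
    congr 1
    refine Finset.prod_congr rfl fun P hPS => ?_
    have hPp : P.IsPrime := Ideal.isPrime_of_prime (hS1 P hPS).1
    by_cases hb : b' ≤ P
    · rw [hP P hPS hb]
    · have h3 : κ' * b' ≤ P := by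
        rw [← hsk]
        exact Ideal.mul_le_left.trans (hS1 P hPS).2
      have h4 : κ' ≤ P := ((Ideal.IsPrime.mul_le hPp).1 h3).resolve_right hb
      rw [one_of P t (h4 ht), (hf P hPS).mc.one, (hf' P hPS).mc.one]

open scoped Classical in
theorem pf_FN (hEF : D_EF) (hSX : F_SX) (hNC : D_NC) : F_FN := by
  intro K _ _ l s k κ₀ Y hSK hkκ hκ6 ι J η hη
  have hsk0 : s * k ≠ ⊥ := hSK.lk.k_ne
  have hs0 : s ≠ ⊥ := left_ne_zero_of_mul hsk0
  have hk0 : k ≠ ⊥ := right_ne_zero_of_mul hsk0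
  have h210 : Ideal.span {(210 : 𝓞 K)} ⊔ k = ⊤ := by
    rw [eq_top_iff, ← hSK.lk.big]
    exact sup_le_sup_left Ideal.mul_le_right _
  obtain ⟨⟨θ, hθ⟩, hE⟩ := hEF K k hk0 h210
  obtain ⟨hE1, hE2, -, -⟩ := hE θ κ₀ hθ hkκ hκ6
  obtain ⟨S, hS1, hS2, hSp⟩ := rad_prod hs0 hSK.sqf
  have hSc : ∀ P ∈ S, Prime P ∧ P ⊔ k = ⊤ := by
    intro P hP
    refine ⟨(hS1 P hP).1, ?_⟩
    rw [eq_top_iff, ← hSK.cop]
    exact sup_le_sup_right (hS1 P hP).2 k
  have hspl : ∀ j, ∃ (f : (P : Ideal (𝓞 K)) → 𝓞 K ⧸ P → ℂ) (g : 𝓞 K ⧸ k → ℂ), j ∈ J →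
      (∀ P ∈ S, LC P (f P)) ∧ LC k g ∧ ∀ Y : 𝓞 K, η j (Ideal.Quotient.mk (s * k) Y) =
        (∏ P ∈ S, f P (Ideal.Quotient.mk P Y)) * g (Ideal.Quotient.mk k Y) := by
    intro j
    by_cases hj : j ∈ J
    · obtain ⟨f, g, h⟩ := split hSX k hk0 S hSc (s * k) (by rw [hSp]) (η j) (hη j hj)
      exact ⟨f, g, fun _ => h⟩
    · exact ⟨fun _ _ => 0, fun _ => 0, fun h => absurd h hj⟩
  choose f g hfg using hspl
  have hlab : ∀ P : Ideal (𝓞 K), ∃ lab : ι → 𝓞 K, P ∈ S → ∀ i ∈ J, ∀ j ∈ J,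
      (lab i - lab j ∈ P ↔ f i P = f j P) := by
    intro P
    by_cases hP : P ∈ S
    · obtain ⟨lab, h⟩ := labels hNC J P (hS1 P hP).1.ne_zero (fun j => f j P)
        (fun j hj => ((hfg j hj).1 P hP).mc)
      exact ⟨lab, fun _ => h⟩
    · exact ⟨fun _ => 0, fun h => absurd h hP⟩
  choose lab hlab using hlab
  have hγs : ∀ j : ι, ∃ y : 𝓞 K, ∀ P ∈ S, y - lab P j ∈ P := by
    intro j
    obtain ⟨y, hy⟩ := IsDedekindDomain.exists_forall_sub_mem_ideal (R := 𝓞 K)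
      (s := S) (fun P => P) (fun _ => 1) (fun P hP => (hS1 P hP).1)
      (fun P _ Q _ h => h) (fun P => lab P.1 j)
    refine ⟨y, fun P hP => ?_⟩
    have h1 := hy P hP
    rwa [pow_one] at h1
  choose γs hγs using hγs
  have hγk : ∀ j, ∃ γ : 𝓞 K, j ∈ J → Fq θ (κ₀.map (Ideal.Quotient.mk k)) (g j)
      (Ideal.Quotient.mk k γ) := by
    intro j
    by_cases hj : j ∈ J
    · obtain ⟨γ, h⟩ := hE1 (g j) (hfg j hj).2.1.mc
      exact ⟨γ, fun _ => h⟩
    · exact ⟨0, fun h => absurd h hj⟩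
  choose γk hγk using hγk
  obtain ⟨u, hu, v, hv, huv⟩ :=
    Submodule.mem_sup.1 (hSK.cop ▸ Submodule.mem_top : (1 : 𝓞 K) ∈ s ⊔ k)
  set γ : ι → 𝓞 K := fun j => u * γk j + v * γs j with hγ
  have hgk : ∀ j, Ideal.Quotient.mk k (γ j) = Ideal.Quotient.mk k (γk j) := by
    intro j
    rw [Ideal.Quotient.eq]
    have e : γ j - γk j = v * (γs j - γk j) := by
      simp only [hγ]
      linear_combination γk j * huv
    rw [e]
    exact k.mul_mem_right _ hv
  have hgs : ∀ j, γ j - γs j ∈ s := by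
    intro j
    have e : γ j - γs j = u * (γk j - γs j) := by
      simp only [hγ]
      linear_combination γs j * huv
    rw [e]
    exact s.mul_mem_right _ hu
  have hfq : ∀ j ∈ J, Fq θ (κ₀.map (Ideal.Quotient.mk k)) (g j) (Ideal.Quotient.mk k (γ j)) := by
    intro j hj
    rw [hgk]
    exact hγk j hj
  have hlb : ∀ P ∈ S, ∀ i ∈ J, ∀ j ∈ J, (γ i - γ j ∈ P ↔ f i P = f j P) := by
    intro P hP i hi j hj
    rw [← hlab P hP i hi j hj]
    have e : γ i - γ j - (lab P i - lab P j) = (γ i - γs i) + (γs i - lab P i) -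
      ((γ j - γs j) + (γs j - lab P j)) := by ring
    have h1 : γ i - γ j - (lab P i - lab P j) ∈ P := by
      rw [e]
      exact P.sub_mem (P.add_mem ((hS1 P hP).2 (hgs i)) (hγs i P hP))
        (P.add_mem ((hS1 P hP).2 (hgs j)) (hγs j P hP))
    constructor
    · intro h2
      have := P.sub_mem h2 h1
      rwa [sub_sub_cancel] at this
    · intro h2
      have := P.add_mem h1 h2
      rwa [sub_add_cancel] at this
  refine ⟨θ, γ, hθ, hη, ?_, ?_⟩
  · intro j hj t ht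
    rw [(hfg j hj).2.2, Finset.prod_eq_one, one_mul, map_add, map_one]
    · exact hfq j hj _ (Ideal.mem_map_of_mem _ ht.2)
    · intro P hP
      rw [map_add, map_one, Ideal.Quotient.eq_zero_iff_mem.2 ((hS1 P hP).2 ht.1), add_zero,
        ((hfg j hj).1 P hP).mc.one]
  · intro i hi j hj κ' b' hκ' hsk
    rw [mem_div hs0 hSK.sqf hSK.cop hsk,
      eq_iff hSK.cop hsk hS1 hSp (hfg i hi).1 (hfg j hj).1 (hfg i hi).2.1 (hfg j hj).2.1
        (hfg i hi).2.2 (hfg j hj).2.2,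
      hE2 (g i) (g j) (γ i) (γ j) (κ' ⊔ k) (b' ⊔ k) (hfg i hi).2.1.mc (hfg j hj).2.1.mc
        (hfq i hi) (hfq j hj) (sup_le hκ' hkκ) le_sup_right (k_eq hSK.cop hsk)]
    refine and_congr_right fun _ => ?_
    constructor
    · intro h P hP hb
      exact (hlb P hP i hi j hj).1 (h P (Ideal.isPrime_of_prime (hS1 P hP).1) (hS1 P hP).2 hb)
    · intro h P hP hsP hb
      exact (hlb P (hS2 P hP hsP) i hi j hj).2 (h P (hS2 P hP hsP) hb)

end Pool.Agent.H19.DF.FN
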