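import Pool.Agent.H23.DF.TargetsL

/-!
# Moments of Hecke L-functions, friable conductors: row ID

The ideals of a class of half differences.
-/

set_option autoImplicit false

open NumberField
open scoped nonZeroDivisors

namespace Pool.Agent.H19.DF.ID

open Pool.Agent.H25.HK Pool.Agent.H23.LB Pool.Agent.H23.LC
open Pool.Agent.H23.DF (F_ID SK Cn Kq)

variable {K : Type} [Field K] [NumberField K]

theorem nmul (a b : Ideal (𝓞 K)) : Nf K (a * b) = Nf K a * Nf K b := by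
  rw [Nf, Nf, Nf, map_mul, Nat.cast_mul]

theorem nge {a : Ideal (𝓞 K)} (h : a ≠ ⊥) : 1 ≤ Nf K a := by
  rw [Nf, Nat.one_le_cast]
  exact Nat.one_le_iff_ne_zero.2 (Ideal.absNorm_eq_zero_iff.not.2 h)

theorem nle {a b : Ideal (𝓞 K)} (ha : a ≠ ⊥) (h : a ≤ b) : Nf K b ≤ Nf K a := by
  rw [Nf, Nf, Nat.cast_le]
  exact Nat.le_of_dvd (Nat.pos_of_ne_zero (Ideal.absNorm_eq_zero_iff.not.2 ha))
    (Ideal.absNorm_dvd_absNorm_of_le h)

/-- cancellation -/
theorem cancel {a b g : Ideal (𝓞 K)} (hg : g ≠ ⊥) (h : g * a ≤ g * b) : a ≤ b := by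
  rw [← Ideal.dvd_iff_le] at h ⊢
  exact (mul_dvd_mul_iff_left hg).1 h

/-- the factors of a radical ideal are coprime -/
theorem cop_of_rad {s a b : Ideal (𝓞 K)} (hs : s ≠ ⊥) (hr : s.radical = s) (h : s = a * b) :
    a ⊔ b = ⊤ := by
  have hsq : Squarefree s := by
    refine IsRadical.squarefree hs ?_
    intro n y hy
    rw [Ideal.dvd_iff_le] at hy ⊢
    intro x hx
    rw [← hr]
    exact ⟨n, hy (Ideal.pow_mem_pow hx n)⟩
  have h1 : (a ⊔ b) * (a ⊔ b) ∣ s := by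
    rw [h]
    exact mul_dvd_mul (Ideal.dvd_iff_le.2 le_sup_left) (Ideal.dvd_iff_le.2 le_sup_right)
  exact Ideal.isUnit_iff.1 (hsq _ h1)

/-- a factor of a radical ideal is radical -/
theorem rad_of_rad {s a b : Ideal (𝓞 K)} (hs : s ≠ ⊥) (hr : s.radical = s) (h : s = a * b) :
    b.radical = b := by
  have ha : a ≠ ⊥ := by
    rintro rfl
    rw [Ideal.bot_mul] at h
    exact hs h
  apply le_antisymm _ Ideal.le_radical
  rintro x ⟨n, hn⟩
  have h3 : a * Ideal.span {x} ≤ a * b := by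
    rw [← h, Ideal.mul_le]
    intro y hy r hrx
    rw [Ideal.mem_span_singleton'] at hrx
    obtain ⟨c, rfl⟩ := hrx
    rw [← hr]
    refine ⟨n + 1, ?_⟩
    rw [h]
    have e : (y * (c * x)) ^ (n + 1) = y * (y ^ n * c ^ (n + 1) * x * x ^ n) := by ring
    rw [e]
    exact Ideal.mul_mem_mul hy (b.mul_mem_left _ hn)
  exact cancel ha h3 (Ideal.mem_span_singleton_self x)

/-- the colon ideal -/
def col (a b : Ideal (𝓞 K)) : Ideal (𝓞 K) where
  carrier := {x | ∀ t ∈ a, x * t ∈ b}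
  add_mem' := by
    intro x y hx hy t ht
    rw [add_mul]
    exact b.add_mem (hx t ht) (hy t ht)
  zero_mem' := by
    intro t _
    rw [zero_mul]
    exact b.zero_mem
  smul_mem' := by
    intro c x hx t ht
    rw [smul_eq_mul, mul_assoc]
    exact b.mul_mem_left _ (hx t ht)

omit [NumberField K] in
theorem mem_col {a b : Ideal (𝓞 K)} (x : 𝓞 K) : x ∈ col a b ↔ ∀ t ∈ a, x * t ∈ b := Iff.rfl

theorem pf_ID : F_ID := by
  intro K _ _ l s k κ b κ₃ b₃ e k' se s' Y hSK hCn hk hs heκ hseκ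
  have hsk0 : s * k ≠ ⊥ := hSK.lk.k_ne
  have hs0 : s ≠ ⊥ := left_ne_zero_of_mul hsk0
  have hk0 : k ≠ ⊥ := right_ne_zero_of_mul hsk0
  have he0 : e ≠ ⊥ := by
    rintro rfl
    exact hk0 (by rw [hk, Ideal.bot_mul])
  have hk'0 : k' ≠ ⊥ := by
    rintro rfl
    exact hk0 (by rw [hk, Ideal.mul_bot])
  have hse0 : se ≠ ⊥ := by
    rintro rfl
    exact hs0 (by rw [hs, Ideal.bot_mul])
  have hs'0 : s' ≠ ⊥ := by
    rintro rfl
    exact hs0 (by rw [hs, Ideal.mul_bot])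
  have hr0 : k.radical ≠ ⊥ := fun h => hk0 (le_bot_iff.1 (h ▸ Ideal.le_radical))
  have hsse : s ≤ se := hs ▸ Ideal.mul_le_left
  have hss' : s ≤ s' := hs ▸ Ideal.mul_le_right
  have hcs : se ⊔ s' = ⊤ := cop_of_rad hs0 hSK.sqf hs
  have hsek : se ⊔ k = ⊤ := by
    rw [eq_top_iff, ← hSK.cop]
    exact sup_le_sup_right hsse k
  have hrr : s'.radical = s' := rad_of_rad hs0 hSK.sqf hs
  have hrk0 : k.radical ⊓ k' ≠ ⊥ := by
    intro h
    have h1 : k.radical * k' ≤ ⊥ := h ▸ Ideal.mul_le_inf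
    exact mul_ne_zero hr0 hk'0 (le_bot_iff.1 h1)
  have hκ0 : κ ≠ ⊥ := fun h => hsk0 (le_bot_iff.1 (h ▸ hCn.kq.le))
  have hκ₃0 : κ₃ ≠ ⊥ := by
    intro h
    exact hsk0 (by rw [hCn.b₃_eq, h, Ideal.bot_mul])
  have hκs0 : κ ⊔ s ≠ ⊥ := fun h => hs0 (le_bot_iff.1 (h ▸ le_sup_right))
  have hκ3s0 : κ₃ ⊔ s ≠ ⊥ := fun h => hs0 (le_bot_iff.1 (h ▸ le_sup_right))
  have hsκ₃0 : s' ⊔ κ₃ ≠ ⊥ := fun h => hs'0 (le_bot_iff.1 (h ▸ le_sup_left))
  refine ⟨he0, hk'0, hse0, hs'0, ?_, hrr, by rw [hk, nmul], by rw [hs, nmul], nmul _ _,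
    nmul _ _, ?_, ?_, nle hrk0 inf_le_right, ?_, nmul _ _, ?_, ?_, ?_⟩
  · rw [← Ideal.isCoprime_iff_sup_eq]
    exact IsCoprime.mul_right (Ideal.isCoprime_iff_sup_eq.2 hcs)
      (Ideal.isCoprime_iff_sup_eq.2 hsek)
  · rw [← nmul]
    have h1 : e * se ≤ κ := by
      refine (Ideal.mul_mono heκ hseκ).trans ?_
      rw [Ideal.sup_mul, Ideal.mul_sup]
      refine sup_le (sup_le Ideal.mul_le_left Ideal.mul_le_left) ?_
      rw [Ideal.mul_sup]
      refine sup_le Ideal.mul_le_right ?_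
      rw [mul_comm]
      exact hCn.kq.le
    exact nle (mul_ne_zero he0 hse0) h1
  · have hc1 : (κ ⊔ s) ⊔ (s' ⊔ κ₃) = ⊤ := by
      rw [eq_top_iff, ← hcs]
      exact sup_le_sup hseκ le_sup_left
    have h1 : κ₃ ⊔ s ≤ (κ ⊔ s) * (s' ⊔ κ₃) := by
      rw [Ideal.mul_eq_inf_of_coprime hc1]
      exact le_inf (sup_le_sup_right hCn.κ₃_le s)
        (sup_le le_sup_right (hss'.trans le_sup_left))
    have h2 := nle hκ3s0 h1
    rw [nmul] at h2
    have h3 := hCn.up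
    have h4 := nge hκs0
    have h5 : Nf K (κ ⊔ s) ≤ Nf K se := nle hse0 hseκ
    have h6 : Nf K (κ ⊔ s) * Nf K (s' ⊔ κ₃) ≤ Nf K (κ ⊔ s) * (Nf K (κ ⊔ s) ^ 2 * Y) := by
      calc Nf K (κ ⊔ s) * Nf K (s' ⊔ κ₃) ≤ Nf K (κ ⊔ s) ^ 3 * Y := h2.trans h3
        _ = Nf K (κ ⊔ s) * (Nf K (κ ⊔ s) ^ 2 * Y) := by ring
    have h7 := le_of_mul_le_mul_left h6 (by linarith)
    refine h7.trans (mul_le_mul_of_nonneg_right ?_ (by linarith [hSK.one]))
    exact pow_le_pow_left₀ (by linarith) h5 2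
  · rw [← nmul]
    exact nle (mul_ne_zero hr0 hk'0) Ideal.mul_le_inf
  · intro γ hγ
    have he3 : e ^ 3 * b₃ ≤ k := by
      calc e ^ 3 * b₃ ≤ (κ ⊔ k) ^ 3 * b₃ := Ideal.mul_mono_left (Ideal.pow_right_mono heκ 3)
        _ = κ₃ * b₃ ⊔ k * b₃ := by rw [← hCn.loc, Ideal.sup_mul]
        _ ≤ k := by
          rw [← hCn.b₃_eq]
          exact sup_le Ideal.mul_le_right Ideal.mul_le_left
    have he2 : e ^ 2 * b₃ ≤ k' := by
      apply cancel he0
      rw [← hk]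
      refine le_trans (le_of_eq ?_) he3
      ring
    have h1 : e ^ 2 * (k' ⊔ Ideal.span {γ}) ≤ k' := by
      rw [Ideal.mul_sup]
      refine sup_le Ideal.mul_le_right (le_trans ?_ he2)
      exact Ideal.mul_mono_right ((Ideal.span_singleton_le_iff_mem _).2 hγ)
    have h0 : e ^ 2 * (k' ⊔ Ideal.span {γ}) ≠ ⊥ := by
      refine mul_ne_zero (pow_ne_zero 2 he0) ?_
      intro h
      have h3 : k' ≤ k' ⊔ Ideal.span {γ} := le_sup_left
      rw [h] at h3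
      exact hk'0 (le_bot_iff.1 h3)
    have h2 := nle h0 h1
    rwa [nmul, sq, nmul, ← sq] at h2
  · obtain ⟨s'', hs''⟩ := Ideal.dvd_iff_le.2 (le_sup_left : s' ≤ s' ⊔ κ₃)
    refine ⟨s'', hs'', ?_⟩
    have hs's'' : s' ≤ s'' := by
      rw [hs'']
      exact Ideal.mul_le_right
    have hc : κ₃ ⊔ s'' = ⊤ := by
      have h1 := cop_of_rad hs'0 hrr hs''
      rw [eq_top_iff, ← h1]
      exact sup_le (sup_le (hs's''.trans le_sup_right) le_sup_left) le_sup_right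
    have h2 : κ₃ * b₃ ≤ s'' := by
      rw [← hCn.b₃_eq]
      exact Ideal.mul_le_left.trans (hss'.trans hs's'')
    calc b₃ = b₃ * (κ₃ ⊔ s'') := by rw [hc, Ideal.mul_top]
      _ = κ₃ * b₃ ⊔ b₃ * s'' := by rw [Ideal.mul_sup, mul_comm b₃ κ₃]
      _ ≤ s'' := sup_le h2 Ideal.mul_le_right
  · refine ⟨col k.radical k', fun x => mem_col x, ?_⟩
    rw [← nmul]
    have h1 : k' ≤ col k.radical k' := fun x hx t _ => k'.mul_mem_right _ hx
    have h2 : col k.radical k' ≠ ⊥ := fun h => hk'0 (le_bot_iff.1 (h ▸ h1))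
    refine nle (mul_ne_zero h2 hr0) ?_
    rw [Ideal.mul_le]
    exact fun x hx t ht => hx t ht

end Pool.Agent.H19.DF.ID
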