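import Pool.Agent.H23.DF.TargetsW

/-!
# Moments of Hecke L-functions, friable conductors: row MY

The bound of Weil for two characters.
-/

set_option autoImplicit false

open Polynomial

namespace Pool.Agent.H19.DF.MY

open Pool.Agent.H23.BG (am sm)
open Pool.Agent.H23.DF

theorem sqrt_pow_nat (q k : ℕ) : Real.sqrt ((q ^ k : ℕ) : ℝ) = (q : ℝ) ^ ((k : ℝ) / 2) := by
  have hq : (0 : ℝ) ≤ q := Nat.cast_nonneg q
  rw [Real.sqrt_eq_rpow, Nat.cast_pow, ← Real.rpow_natCast, ← Real.rpow_mul hq]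
  congr 1
  ring

theorem pf_MY (hTK : V_TK) (hLX : V_LX) (hVA : V_VA) (hPL : V_PL)
    (hNE : Pool.Agent.H23.BG.W_NE) (hEP : Pool.Agent.H23.BG.W_EP)
    (hEY : Pool.Agent.H23.BG.W_EY) : V_MY := by
  intro F _ _ χ ψ π x hχ h2 hπ hx
  classical
  have : Fintype (MulChar F ℂ) := Fintype.ofFinite _
  obtain ⟨C, k₀, hC, hk₀, hT⟩ := hTK F χ π x hχ h2 hπ hx
  have hsm : ∀ (ψ : MulChar F ℂ) (E : Type) [Field E] [Fintype E] [Algebra F E],
      sm F (m4 χ ψ π x) (Module.finrank F E) = ∑ y : E, n4 χ ψ π x y := by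
    intro ψ E _ _ _
    rw [hEY F E (m4 χ ψ π x)]
    exact Finset.sum_congr rfl fun y _ => (hLX F χ ψ π x).2 E y
  have hq : (1 : ℝ) ≤ Fintype.card F := by exact_mod_cast Fintype.card_pos
  have key := hPL (MulChar F ℂ) (fun ψ => am F (m4 χ ψ π x)) (fun ψ => sm F (m4 χ ψ π x))
    (Fintype.card F) C k₀ hq hk₀ (fun ψ => (hVA F χ ψ π x hχ h2 hπ hx).1)
    (fun ψ n hn => (hVA F χ ψ π x hχ h2 hπ hx).2 n hn)
    (fun ψ n hn => hEP F (m4 χ ψ π x) (hLX F χ ψ π x).1.1 (hLX F χ ψ π x).1.2 n hn)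
    (fun k hk hk0 => by
      obtain ⟨E, _, _, _, hfr, hE⟩ := hNE F k hk
      obtain ⟨χ', hχ', hN⟩ := hE χ
      have h1 := hT E χ' (by rw [hfr]; exact hk0) hχ' hN
      have h3 : ∑ ψ : MulChar F ℂ, sm F (m4 χ ψ π x) k =
          ∑ ψ : MulChar F ℂ, ∑ y : E, n4 χ ψ π x y := by
        refine Finset.sum_congr rfl fun ψ _ => ?_
        rw [← hfr]
        exact hsm ψ E
      have h4 : Fintype.card E = Fintype.card F ^ k := by
        rw [← hfr]
        exact Module.card_eq_pow_finrank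
      rw [h4, sqrt_pow_nat] at h1
      rw [h3]
      exact h1) ψ
  have h5 : sm F (m4 χ ψ π x) 1 = ∑ y : F, χ (y + (x + π)) *
      (starRingEnd ℂ) (χ (y + (x - π))) * ((starRingEnd ℂ) (ψ (y + π)) * ψ (y - π)) := by
    have h6 := hsm ψ F
    rw [Module.finrank_self] at h6
    rw [h6]
    refine Finset.sum_congr rfl fun y _ => ?_
    simp only [n4, Algebra.algebraMap_self, RingHom.id_apply, Algebra.norm_self,
      MonoidHom.id_apply]
  rw [h5] at key
  exact key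

end Pool.Agent.H19.DF.MY
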