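import Pool.Agent.H23.DF.TargetsL
import Pool.Agent.H19.BG.L_CR

/-!
# Moments of Hecke L-functions, friable conductors: row SX

The components of a primitive character.
-/

set_option autoImplicit false

open NumberField

namespace Pool.Agent.H19.DF.SX

open Pool.Agent.H29.TC (LC MC AC)
open Pool.Agent.H23.BG.CR (spl mc prim)

theorem pf_SX : Pool.Agent.H23.DF.F_SX := by
  intro K _ _ a b ha hb hab η hη
  have hco : IsCoprime a b := Ideal.isCoprime_iff_sup_eq.2 hab
  let e := Ideal.quotientMulEquivQuotientProd a b hco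
  let e' : (𝓞 K ⧸ a * b) ≃+* (𝓞 K ⧸ b) × (𝓞 K ⧸ a) := e.trans RingEquiv.prodComm
  have he : ∀ x : 𝓞 K, e (Ideal.Quotient.mk (a * b) x) =
      (Ideal.Quotient.mk a x, Ideal.Quotient.mk b x) := by
    intro x
    refine Prod.ext ?_ ?_
    · rw [Ideal.quotientMulEquivQuotientProd_fst]; rfl
    · rw [Ideal.quotientMulEquivQuotientProd_snd]; rfl
  refine ⟨fun x => η (e.symm (x, 1)), fun y => η (e.symm (1, y)), ⟨mc e hη.mc, ?_⟩,
    ⟨mc e' hη.mc, ?_⟩, ?_⟩
  · intro w hw
    exact prim e hη.prim w hw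
  · intro w hw
    exact prim e' hη.prim w hw
  · intro Y
    rw [← spl e hη.mc, ← he, RingEquiv.symm_apply_apply]

end Pool.Agent.H19.DF.SX
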